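import Pool.Agent.H73.SMD.Stmts

/-!
# Board SMD, row KEY: the limit maps `D` to itself
-/

set_option autoImplicit false

open Set Filter Topology MeasureTheory Metric

namespace Pool.SMD

open Pool.PHS Pool.LPC

theorem KEY_thm (hSEL : SELStmt) (hNUU : NUUStmt) (hPOI : POIStmt) (hHFI : HFIStmt)
    (hEXB : EXBStmt) (hGRA : GRAStmt) (hFIN : FINStmt) : KEYStmt := by
  intro r C₀ f h m hD hf hlim hjac hhol hmaps hCo hCn hCD hfix hbd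
  by_contra hne
  have hrc : Continuous r := hD.c1.continuous
  have hDo : IsOpen {z : Cn 2 | r z < 0} := isOpen_lt hrc continuous_const
  have hcl : ∀ z ∈ closure {z : Cn 2 | r z < 0}, r z ≤ 0 := by
    intro z hz
    have h1 : closure {z : Cn 2 | r z < 0} ⊆ {z : Cn 2 | r z ≤ 0} :=
      closure_minimal (fun y (hy : r y < 0) => show r y ≤ 0 from hy.le)
        (isClosed_le hrc continuous_const)
    exact h1 hz
  obtain ⟨ψ, hψ, hψcl, hψ0, hψs, hψa⟩ := hSEL {z : Cn 2 | r z < 0} C₀ h hDo hD.cn hhol hmaps hCo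
    hCn hCD hne hfix hbd
  have hψr : ∀ u ∈ ball (0 : ℂ) 2, r (ψ u) ≤ 0 := fun u hu => hcl _ (hψcl u hu)
  have h0 : (0 : ℂ) ∈ ball (0 : ℂ) 2 := mem_ball_self (by norm_num)
  have hx0 : r (ψ 0) = 0 := le_antisymm (hψr 0 h0) (not_lt.mp hψ0)
  obtain ⟨ν, hν⟩ := hNUU r (ψ 0) (hD.nd _ hx0)
  obtain ⟨φ, hφ⟩ := hPOI
  have hψs1 : ∀ u ∈ ball (0 : ℂ) 2, ‖u‖ < 2 * u.re → r (ψ u) < 0 := fun u hu hu2 =>
    (hψs u hu hu2).1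
  obtain ⟨ρ, ε, hρ, hρ1, hε, hΦd, hΦm, hΦs, hΦb⟩ := hHFI r (ψ 0) ν ψ φ hD.c1 hν hφ hψ rfl hψr hψs1
  obtain ⟨G, hGd, hGr, hGh, hGb⟩ := hEXB r f h m (Phi ψ φ ν ρ ε) (1 / 2000) hD hf hlim hjac
    (by norm_num) (by norm_num) hΦd hΦm hΦs hΦb
  have hδ0 : (0 : ℝ) < 1 / 2000 / 2 := by norm_num
  have hδ1 : (1 / 2000 / 2 : ℝ) < 1 := by norm_num
  obtain ⟨κ, hκ, hGκ⟩ := hGRA r h ν ψ φ ρ ε (1 / 2000 / 2) G hφ hψ hρ hρ1 hδ0 hδ1 hψs hGd hGh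
  exact hFIN r (ψ 0) ν ψ φ ρ ε (1 / 2000 / 2) κ G hD.c1 hx0 hν hφ hψ rfl hψr hψs1
    (hψa.imp id fun ha u hu hu0 => ha u hu hu0) hρ hρ1 hε hδ0 hδ1 hκ hGd hGr hGκ hGb

end Pool.SMD
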